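import Mathlib

set_option autoImplicit false

namespace Pool.Agent.V11268.SS

open Polynomial

/-- `2` is a primitive root modulo `3 ^ (j + 1)`. -/
theorem orderOf_two (j : ℕ) (u : (ZMod (3 ^ (j + 1)))ˣ) (hu : (u : ZMod (3 ^ (j + 1))) = 2) :
    orderOf u = 2 * 3 ^ j := by
  have hcast : ∀ m : ℕ, u ^ m = 1 ↔ (3 ^ (j + 1) : ℤ) ∣ 2 ^ m - 1 := by
    intro m
    rw [← Units.val_inj, Units.val_pow_eq_pow_val, hu, Units.val_one]
    have := (ZMod.intCast_zmod_eq_zero_iff_dvd (2 ^ m - 1) (3 ^ (j + 1)))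
    push_cast at this
    rw [← this, sub_eq_zero]
  have hv : ∀ m : ℕ, 3 ^ (j + 1) ∣ (4 : ℤ) ^ m - 1 ↔ 3 ^ j ∣ m := by
    intro m
    rcases Nat.eq_zero_or_pos m with rfl | hm
    · simp
    · have h1 := Int.emultiplicity_pow_sub_pow Nat.prime_three (by decide : Odd 3)
        (x := 4) (y := 1) (by norm_num) (by norm_num) m
      rw [one_pow] at h1
      have h2 : emultiplicity (3 : ℤ) (4 - 1) = 1 := by
        have e : (4 - 1 : ℤ) = 3 := by norm_num
        rw [e]
        exact (Int.finiteMultiplicity_iff.mpr ⟨by norm_num, by norm_num⟩).emultiplicity_self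
      have h3 : emultiplicity ((3 : ℕ) : ℤ) (4 - 1) = 1 := h2
      rw [h3] at h1
      have e1 : (3 : ℤ) ^ (j + 1) ∣ 4 ^ m - 1 ↔ ((j + 1 : ℕ) : ℕ∞) ≤
          emultiplicity ((3 : ℕ) : ℤ) (4 ^ m - 1) := by
        exact pow_dvd_iff_le_emultiplicity
      have e2 : 3 ^ j ∣ m ↔ ((j : ℕ) : ℕ∞) ≤ emultiplicity 3 m := pow_dvd_iff_le_emultiplicity
      rw [e1, e2, h1]
      push_cast
      rw [add_comm (1 : ℕ∞)]
      exact ENat.add_le_add_iff_right (by norm_num)
  refine orderOf_eq_of_pow_and_pow_div_prime (by positivity) ?_ ?_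
  · rw [hcast, pow_mul]
    norm_num
    exact (hv _).mpr dvd_rfl
  · intro p hp hpd h
    rw [hcast] at h
    have hp23 : p = 2 ∨ p = 3 := by
      rcases (Nat.Prime.dvd_mul hp).mp hpd with h1 | h1
      · left; exact (Nat.prime_dvd_prime_iff_eq hp Nat.prime_two).mp h1
      · right; exact (Nat.prime_dvd_prime_iff_eq hp Nat.prime_three).mp (hp.dvd_of_dvd_pow h1)
    rcases hp23 with rfl | rfl
    · rw [Nat.mul_div_cancel_left _ (by norm_num)] at h
      have h1 : (3 : ℤ) ∣ 2 ^ (3 ^ j) - 1 := (dvd_pow_self 3 (by omega)).trans h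
      have h2 : (3 : ℤ) ∣ 2 ^ (3 ^ j) + 1 := by
        have hodd : Odd (3 ^ j) := Odd.pow (by decide)
        have := Odd.add_dvd_pow_add_pow (2 : ℤ) 1 hodd
        rw [one_pow] at this
        exact this
      have h3 : (3 : ℤ) ∣ 2 := by
        have := dvd_sub h2 h1
        ring_nf at this
        exact this
      norm_num at h3
    · rcases j with _ | i
      · norm_num at hpd
      · have h1 : 2 * 3 ^ (i + 1) / 3 = 2 * 3 ^ i := by
          rw [pow_succ, ← mul_assoc]
          exact Nat.mul_div_cancel _ (by norm_num)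
        rw [h1, pow_mul] at h
        norm_num at h
        have h2 := (hv _).mp h
        have h3 := Nat.le_of_dvd (by positivity) h2
        rw [pow_succ] at h3
        have : 0 < 3 ^ i := by positivity
        omega

theorem irreducible_mod_two (j : ℕ) :
    Irreducible (X ^ (2 * 3 ^ j) + X ^ (3 ^ j) + 1 : (ZMod 2)[X]) := by
  have hcyc : cyclotomic (3 ^ (j + 1)) (ZMod 2) = X ^ (2 * 3 ^ j) + X ^ (3 ^ j) + 1 := by
    rw [cyclotomic_prime_pow_eq_geom_sum Nat.prime_three, Finset.sum_range_succ,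
      Finset.sum_range_succ, Finset.sum_range_one, pow_zero]
    ring
  have hndvd : ¬ 2 ∣ 3 ^ (j + 1) := by
    intro h
    have := Nat.prime_two.dvd_of_dvd_pow h
    norm_num at this
  rw [← hcyc]
  refine ZMod.irreducible_of_dvd_cyclotomic_of_natDegree (p := 2) hndvd dvd_rfl ?_
  rw [natDegree_cyclotomic, orderOf_two j _ (by rw [ZMod.coe_unitOfCoprime]; norm_num),
    Nat.totient_prime_pow Nat.prime_three (by omega)]
  simp
  ring

/-- The polynomial `G(u) = u ^ (2 k) + 3 (2 u - 1) u ^ k + (2 u - 1) ^ 2`. -/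
noncomputable def G (k : ℕ) : ℤ[X] := X ^ (2 * k) + 3 * (2 * X - 1) * X ^ k + (2 * X - 1) ^ 2

theorem G_monic (k : ℕ) (hk : 3 ≤ k) : (G k).Monic ∧ (G k).natDegree = 2 * k := by
  have hd : (3 * (2 * X - 1) * X ^ k + (2 * X - 1) ^ 2 : ℤ[X]).natDegree ≤ k + 1 := by
    have h1 : (2 * X - 1 : ℤ[X]).natDegree ≤ 1 := by
      have : (2 * X - 1 : ℤ[X]) = C 2 * X - C 1 := by simp
      rw [this]
      compute_degree
    refine (natDegree_add_le _ _).trans (max_le ?_ ?_)
    · refine natDegree_mul_le.trans ?_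
      rw [natDegree_X_pow]
      have : (3 * (2 * X - 1) : ℤ[X]).natDegree ≤ 1 := by
        have e : (3 * (2 * X - 1) : ℤ[X]) = C 3 * (2 * X - 1) := by simp
        rw [e]
        exact (natDegree_C_mul_le _ _).trans h1
      omega
    · refine natDegree_pow_le.trans ?_
      omega
  have hG : G k = X ^ (2 * k) + (3 * (2 * X - 1) * X ^ k + (2 * X - 1) ^ 2) := by
    rw [G]; ring
  constructor
  · rw [hG]
    apply monic_X_pow_add
    refine lt_of_le_of_lt degree_le_natDegree ?_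
    exact_mod_cast (by omega : _ < 2 * k)
  · rw [hG, natDegree_add_eq_left_of_natDegree_lt, natDegree_X_pow]
    rw [natDegree_X_pow]
    omega

theorem G_irreducible (j : ℕ) (hj : 1 ≤ j) : Irreducible (G (3 ^ j)) := by
  have hk : 3 ≤ 3 ^ j := by
    calc 3 = 3 ^ 1 := by norm_num
      _ ≤ 3 ^ j := Nat.pow_le_pow_right (by norm_num) hj
  refine (G_monic _ hk).1.irreducible_of_irreducible_map (Int.castRingHom (ZMod 2)) _ ?_
  have h2 : (2 : (ZMod 2)[X]) = 0 := CharTwo.two_eq_zero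
  have h3 : (3 : (ZMod 2)[X]) = 1 := by
    have : (3 : (ZMod 2)[X]) = 2 + 1 := by norm_num
    rw [this, h2, zero_add]
  have : (G (3 ^ j)).map (Int.castRingHom (ZMod 2)) = X ^ (2 * 3 ^ j) + X ^ (3 ^ j) + 1 := by
    rw [G]
    simp only [Polynomial.map_add, Polynomial.map_mul, Polynomial.map_sub, Polynomial.map_pow,
      Polynomial.map_X, Polynomial.map_one, Polynomial.map_ofNat]
    rw [h2, h3]
    have hneg : (-1 : (ZMod 2)[X]) = 1 := CharTwo.neg_eq 1
    rw [zero_mul, zero_sub, hneg]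
    ring
  rw [this]
  exact irreducible_mod_two j

end Pool.Agent.V11268.SS
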