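import Mathlib
import Pool.Agent.V11268.SS.Irr

set_option autoImplicit false

namespace Pool.Agent.V11268.SS

open Polynomial IntermediateField

theorem sq_add_sq_ne (a b : ℤ) : a ^ 2 + b ^ 2 ≠ 19 := by
  intro h
  have h4 : (a ^ 2 + b ^ 2) % 4 = 3 := by rw [h]; norm_num
  have ha : a ^ 2 % 4 = 0 ∨ a ^ 2 % 4 = 1 := by
    rcases Int.emod_two_eq_zero_or_one a with h1 | h1
    · left
      obtain ⟨c, hc⟩ := Int.dvd_of_emod_eq_zero h1
      rw [hc]; ring_nf; omega
    · right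
      obtain ⟨c, hc⟩ : ∃ c, a = 2 * c + 1 := ⟨a / 2, by omega⟩
      rw [hc]; ring_nf; omega
  have hb : b ^ 2 % 4 = 0 ∨ b ^ 2 % 4 = 1 := by
    rcases Int.emod_two_eq_zero_or_one b with h1 | h1
    · left
      obtain ⟨c, hc⟩ := Int.dvd_of_emod_eq_zero h1
      rw [hc]; ring_nf; omega
    · right
      obtain ⟨c, hc⟩ : ∃ c, b = 2 * c + 1 := ⟨b / 2, by omega⟩
      rw [hc]; ring_nf; omega
  omega

/-- Value of a product `h(X) h(-X)` at `i` in the Gaussian integers. -/
theorem gauss_value (h : ℤ[X]) : ∃ a b : ℤ,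
    aeval (⟨0, 1⟩ : GaussianInt) (h * h.comp (-X)) = ((a ^ 2 + b ^ 2 : ℤ) : GaussianInt) := by
  obtain ⟨z, hz⟩ : ∃ z : GaussianInt, z = aeval (⟨0, 1⟩ : GaussianInt) h := ⟨_, rfl⟩
  refine ⟨z.re, z.im, ?_⟩
  have hneg : (-(⟨0, 1⟩ : GaussianInt)) = star (⟨0, 1⟩ : GaussianInt) := by
    ext <;> simp
  have h1 : aeval (⟨0, 1⟩ : GaussianInt) (h.comp (-X)) = star z := by
    rw [aeval_comp, map_neg, aeval_X, hneg, hz]
    have := (Polynomial.hom_eval₂ h (algebraMap ℤ GaussianInt) (starRingEnd GaussianInt)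
      (⟨0, 1⟩ : GaussianInt))
    rw [aeval_def, aeval_def]
    change _ = (starRingEnd GaussianInt) _
    rw [this]
    congr 1
  have h2 : ((z.re ^ 2 + z.im ^ 2 : ℤ) : GaussianInt) = ⟨z.re ^ 2 + z.im ^ 2, 0⟩ := rfl
  rw [map_mul, h1, ← hz, h2]
  ext
  · simp; ring
  · simp; ring

theorem value_at_i (k : ℕ) (hk : Odd k) :
    aeval (⟨0, 1⟩ : GaussianInt) ((G k).comp (X ^ 2)) = (19 : ℤ) := by
  have h1 : (⟨0, 1⟩ : GaussianInt) ^ 2 = -1 := by
    rw [sq]; ext <;> simp
  rw [aeval_comp, map_pow, aeval_X, h1, G]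
  simp only [map_add, map_mul, map_sub, map_pow, map_one, map_ofNat, aeval_X]
  rw [pow_mul, hk.neg_one_pow]
  norm_num

theorem comp_facts (k : ℕ) (hk : 3 ≤ k) : ((G k).comp (X ^ 2)).Monic ∧
    ((G k).comp (X ^ 2)).natDegree = 4 * k := by
  obtain ⟨h1, h2⟩ := G_monic k hk
  refine ⟨h1.comp (monic_X_pow 2) (by rw [natDegree_X_pow]; norm_num), ?_⟩
  rw [natDegree_comp, natDegree_X_pow, h2]; ring

/-- The polynomial `G (X ^ 2)` is the minimal polynomial of each of its roots. -/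
theorem minpoly_eq (j : ℕ) (hj : 1 ≤ j) (α : ℂ) (hα : aeval (α ^ 2) (G (3 ^ j)) = 0) :
    minpoly ℤ α = (G (3 ^ j)).comp (X ^ 2) := by
  set k := 3 ^ j with hkdef
  have hk : 3 ≤ k := by
    calc 3 = 3 ^ 1 := by norm_num
      _ ≤ 3 ^ j := Nat.pow_le_pow_right (by norm_num) hj
  have hkodd : Odd k := Odd.pow (by decide)
  obtain ⟨hGm, hGd⟩ := G_monic k hk
  obtain ⟨hPm, hPd⟩ := comp_facts k hk
  set P := (G k).comp (X ^ 2) with hP
  have hPα : aeval α P = 0 := by rw [hP, aeval_comp, map_pow, aeval_X]; exact hα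
  have hαint : IsIntegral ℤ α := ⟨P, hPm, hPα⟩
  have huint : IsIntegral ℤ (α ^ 2) := hαint.pow 2
  have hα0 : α ≠ 0 := by
    rintro rfl
    have hpos : 0 < k := by omega
    rw [zero_pow (by norm_num), G] at hα
    simp [zero_pow hpos.ne', zero_pow (by omega : 2 * k ≠ 0)] at hα
  have hmu : minpoly ℤ (α ^ 2) = G k := by
    have hdvd := minpoly.isIntegrallyClosed_dvd huint hα
    rcases (G_irreducible j hj).dvd_iff.mp hdvd with h | h
    · exact absurd h (minpoly.not_isUnit ℤ _)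
    · exact (eq_of_monic_of_associated hGm (minpoly.monic huint) h).symm
  set h := minpoly ℤ α with hh
  have hm : h.Monic := minpoly.monic hαint
  have hhα : aeval α h = 0 := minpoly.aeval ℤ α
  have hirr : Irreducible h := minpoly.irreducible hαint
  have hdvd : h ∣ P := minpoly.isIntegrallyClosed_dvd hαint hPα
  have hdeg1 : (minpoly ℚ α).natDegree = h.natDegree := by
    rw [minpoly.isIntegrallyClosed_eq_field_fractions' ℚ hαint, hm.natDegree_map]
  have hdeg2 : (minpoly ℚ (α ^ 2)).natDegree = 2 * k := by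
    rw [minpoly.isIntegrallyClosed_eq_field_fractions' ℚ huint, (minpoly.monic huint).natDegree_map,
      hmu, hGd]
  have hle : ℚ⟮α ^ 2⟯ ≤ ℚ⟮α⟯ := by
    rw [adjoin_simple_le_iff]
    exact pow_mem (mem_adjoin_simple_self ℚ α) 2
  have hαQ : IsIntegral ℚ α := hαint.tower_top
  have huQ : IsIntegral ℚ (α ^ 2) := huint.tower_top
  have hfin : FiniteDimensional ℚ ℚ⟮α⟯ := adjoin.finiteDimensional hαQ
  have hdivdeg : 2 * k ∣ h.natDegree := by
    rw [← hdeg1, ← hdeg2, ← adjoin.finrank hαQ, ← adjoin.finrank huQ]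
    exact finrank_dvd_of_le_right hle
  have hdegle : h.natDegree ≤ 4 * k := by
    rw [← hPd]
    exact natDegree_le_of_dvd hdvd hPm.ne_zero
  have hdegpos : 0 < h.natDegree := minpoly.natDegree_pos hαint
  by_cases h4 : h.natDegree = 4 * k
  · exact (eq_of_monic_of_dvd_of_natDegree_le hm hPm hdvd (by rw [hPd, h4])).symm
  exfalso
  have h2k : h.natDegree = 2 * k := by
    obtain ⟨c, hc⟩ := hdivdeg
    have hc1 : c ≠ 0 := by rintro rfl; omega
    have hc2 : c < 2 := by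
      by_contra hcon
      push Not at hcon
      have h5 : 2 * k * 2 ≤ 2 * k * c := Nat.mul_le_mul_left _ hcon
      omega
    have : c = 1 := by omega
    rw [hc, this, mul_one]
  -- `α` is a rational polynomial in `α²`
  have heq : ℚ⟮α ^ 2⟯ = ℚ⟮α⟯ := by
    apply IntermediateField.eq_of_le_of_finrank_eq hle
    rw [adjoin.finrank hαQ, adjoin.finrank huQ, hdeg1, hdeg2, h2k]
  have hr : ∃ r : ℚ[X], aeval (α ^ 2) r = α := by
    have h6 : α ∈ (ℚ⟮α ^ 2⟯).toSubalgebra := by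
      have : α ∈ ℚ⟮α ^ 2⟯ := by rw [heq]; exact mem_adjoin_simple_self ℚ α
      exact this
    rw [adjoin_simple_toSubalgebra_of_isAlgebraic huQ.isAlgebraic,
      Algebra.adjoin_singleton_eq_range_aeval] at h6
    obtain ⟨r, hr⟩ := h6
    exact ⟨r, hr⟩
  obtain ⟨r, hr⟩ := hr
  have hnot : aeval (-α) h ≠ 0 := by
    intro h0
    have h7 : aeval α (X - r.comp (X ^ 2)) = 0 := by
      rw [map_sub, aeval_X, aeval_comp, map_pow, aeval_X, hr, sub_self]
    have h8 : minpoly ℚ α ∣ X - r.comp (X ^ 2) := minpoly.dvd ℚ α h7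
    have h9 : aeval (-α) (minpoly ℚ α) = 0 := by
      rw [minpoly.isIntegrallyClosed_eq_field_fractions' ℚ hαint, aeval_map_algebraMap]
      exact h0
    have h10 := aeval_eq_zero_of_dvd_aeval_eq_zero h8 h9
    rw [map_sub, aeval_X, aeval_comp, map_pow, aeval_X, neg_sq, hr] at h10
    apply hα0
    linear_combination (-1 / 2 : ℂ) * h10
  -- the reflected polynomial
  set h' := h.comp (-X) with hh'
  have hPeven : P.comp (-X) = P := by
    rw [hP, comp_assoc]
    congr 1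
    simp
  have hdvd' : h' ∣ P := by
    rw [← hPeven, hh']
    obtain ⟨c, hc⟩ := hdvd
    exact ⟨c.comp (-X), by rw [hc, mul_comp]⟩
  have hnd : ¬ h ∣ h' := by
    intro h11
    have h12 : aeval α h' = 0 := aeval_eq_zero_of_dvd_aeval_eq_zero h11 hhα
    rw [hh', aeval_comp, map_neg, aeval_X] at h12
    exact hnot h12
  obtain ⟨c, hc⟩ := hdvd'
  have hprime : Prime h := hirr.prime
  have h13 : h ∣ c := by
    have : h ∣ h' * c := by rw [← hc]; exact hdvd
    exact (hprime.dvd_or_dvd this).resolve_left hnd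
  obtain ⟨d, hd⟩ := h13
  have hprod : P = h * h' * d := by rw [hc, hd]; ring
  have hh'd : h'.natDegree = 2 * k := by
    rw [hh', natDegree_comp, natDegree_neg, natDegree_X, mul_one, h2k]
  have hne : P ≠ 0 := hPm.ne_zero
  have hd0 : d ≠ 0 := by rintro rfl; rw [mul_zero] at hprod; exact hne hprod
  have hh'0 : h' ≠ 0 := by
    intro h0; rw [h0, mul_zero, zero_mul] at hprod; exact hne hprod
  have hdd : d.natDegree = 0 := by
    have h14 := congrArg natDegree hprod
    rw [hPd, natDegree_mul (mul_ne_zero hm.ne_zero hh'0) hd0, natDegree_mul hm.ne_zero hh'0, h2k,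
      hh'd] at h14
    omega
  obtain ⟨e, he⟩ : ∃ e : ℤ, d = C e := ⟨d.coeff 0, eq_C_of_natDegree_eq_zero hdd⟩
  -- evaluate at `0`
  have h0 : (P.eval 0 : ℤ) = 1 := by
    rw [hP, eval_comp, G]
    have hpos : 0 < k := by omega
    simp [zero_pow hpos.ne', hpos.ne']
  have he1 : e = 1 := by
    rw [hprod, he, eval_mul, eval_mul, hh', eval_comp, eval_neg, eval_X, neg_zero, eval_C] at h0
    have h15 : (h.eval 0) * (h.eval 0) = (h.eval 0) ^ 2 := by ring
    rw [h15] at h0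
    have h16 : 0 ≤ (h.eval 0) ^ 2 := sq_nonneg _
    have h17 : (h.eval 0) ^ 2 ∣ 1 := ⟨e, h0.symm⟩
    have h18 : (h.eval 0) ^ 2 = 1 := by
      rcases Int.isUnit_iff.mp (isUnit_of_dvd_one h17) with h19 | h19
      · exact h19
      · omega
    rw [h18, one_mul] at h0
    exact h0
  rw [he, he1, C_1, mul_one] at hprod
  obtain ⟨a, b, hab⟩ := gauss_value h
  rw [← hh', ← hprod, hP, value_at_i k hkodd] at hab
  have : (19 : ℤ) = a ^ 2 + b ^ 2 := by exact_mod_cast hab
  exact sq_add_sq_ne a b this.symm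

end Pool.Agent.V11268.SS
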