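import Mathlib
import Pool.Agent.V11268.SS.Min

set_option autoImplicit false

namespace Pool.Agent.V11268.SS

open Polynomial ComplexConjugate

noncomputable def lam1 : ℝ := (3 - √5) / 2
noncomputable def lam2 : ℝ := (3 + √5) / 2

theorem sqrt5_bounds : 2 < √5 ∧ √5 < 7 / 3 := by
  constructor
  · rw [Real.lt_sqrt (by norm_num)]; norm_num
  · rw [Real.sqrt_lt' (by norm_num)]; norm_num

theorem lam_sum : lam1 + lam2 = 3 := by rw [lam1, lam2]; ring

theorem lam_mul : lam1 * lam2 = 1 := by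
  have h : √5 * √5 = 5 := Real.mul_self_sqrt (by norm_num)
  rw [lam1, lam2]; linear_combination (-1 / 4) * h

theorem lam1_bounds : 1 / 3 ≤ lam1 ∧ lam1 ≤ 3 := by
  have := sqrt5_bounds
  rw [lam1]; constructor <;> linarith

theorem lam2_bounds : 1 / 3 ≤ lam2 ∧ lam2 ≤ 3 := by
  have := sqrt5_bounds
  rw [lam2]; constructor <;> linarith

theorem lam_ne : lam1 ≠ lam2 := by
  have := sqrt5_bounds
  rw [lam1, lam2]; intro h; linarith

theorem root_iff (k : ℕ) (u : ℂ) : aeval u (G k) = 0 ↔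
    u ^ k = lam1 * (1 - 2 * u) ∨ u ^ k = lam2 * (1 - 2 * u) := by
  have h1 : ((lam1 : ℂ) + lam2) = 3 := by exact_mod_cast congrArg (fun x : ℝ => (x : ℂ)) lam_sum
  have h2 : ((lam1 : ℂ) * lam2) = 1 := by exact_mod_cast congrArg (fun x : ℝ => (x : ℂ)) lam_mul
  have hf : aeval u (G k) =
      (u ^ k - lam1 * (1 - 2 * u)) * (u ^ k - lam2 * (1 - 2 * u)) := by
    rw [G]
    simp only [map_add, map_mul, map_sub, map_pow, map_one, map_ofNat, aeval_X]
    have e : u ^ (2 * k) = u ^ k * u ^ k := by rw [two_mul, pow_add]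
    rw [e]
    linear_combination (-u ^ k * (2 * u - 1)) * h1 - (1 - 2 * u) ^ 2 * h2
  rw [hf, mul_eq_zero, sub_eq_zero, sub_eq_zero]

theorem nonreal_bounds (k : ℕ) (hk : 2 ≤ k) (l : ℝ) (hl1 : 1 / 3 ≤ l) (hl2 : l ≤ 3) (u : ℂ)
    (hu : u.im ≠ 0) (h : u ^ k = l * (1 - 2 * u)) :
    2 / (3 * k) ≤ ‖u‖ ^ (k - 1) ∧ ‖u‖ ^ (k - 1) ≤ 9 := by
  have hk0 : (0 : ℝ) < k := by
    have : 0 < k := by omega
    exact_mod_cast this
  constructor
  · have hc : (conj u) ^ k = l * (1 - 2 * conj u) := by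
      rw [← map_pow, h, map_mul, map_sub, map_mul, map_one, map_ofNat, Complex.conj_ofReal]
    have hne : u - conj u ≠ 0 := by
      intro h0
      apply hu
      have := congrArg Complex.im h0
      simp at this
      linarith
    have hgeom := (Commute.all u (conj u)).mul_geom_sum₂ k
    rw [h, hc] at hgeom
    have hsum : ∑ i ∈ Finset.range k, u ^ i * (conj u) ^ (k - 1 - i) = -2 * l := by
      apply mul_left_cancel₀ hne
      rw [hgeom]; ring
    have hnorm : ‖∑ i ∈ Finset.range k, u ^ i * (conj u) ^ (k - 1 - i)‖ ≤ k * ‖u‖ ^ (k - 1) := by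
      refine (norm_sum_le _ _).trans ?_
      have : ∀ i ∈ Finset.range k, ‖u ^ i * (conj u) ^ (k - 1 - i)‖ = ‖u‖ ^ (k - 1) := by
        intro i hi
        rw [Finset.mem_range] at hi
        rw [norm_mul, norm_pow, norm_pow, RCLike.norm_conj, ← pow_add]
        congr 1; omega
      rw [Finset.sum_congr rfl this, Finset.sum_const, Finset.card_range, nsmul_eq_mul]
    rw [hsum] at hnorm
    have h2l : ‖(-2 * (l : ℂ))‖ = 2 * l := by
      rw [norm_mul, norm_neg, Complex.norm_real, Real.norm_eq_abs, abs_of_nonneg (by linarith)]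
      norm_num
    rw [h2l] at hnorm
    rw [div_le_iff₀ (by positivity)]
    linarith
  · have hn : ‖u‖ ^ k = l * ‖1 - 2 * u‖ := by
      rw [← norm_pow, h, norm_mul, Complex.norm_real, Real.norm_eq_abs,
        abs_of_nonneg (by linarith)]
    have h2 : ‖1 - 2 * u‖ ≤ 1 + 2 * ‖u‖ := by
      refine (norm_sub_le _ _).trans ?_
      rw [norm_mul, norm_one]; norm_num
    rcases le_or_gt 1 ‖u‖ with h1 | h1
    · have h3 : ‖u‖ ^ k = ‖u‖ ^ (k - 1) * ‖u‖ := by
        rw [← pow_succ]; congr 1; omega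
      rw [h3] at hn
      have h4 : ‖u‖ ^ (k - 1) * ‖u‖ ≤ 9 * ‖u‖ := by
        rw [hn]
        have : l * ‖1 - 2 * u‖ ≤ 3 * (1 + 2 * ‖u‖) :=
          mul_le_mul hl2 h2 (norm_nonneg _) (by norm_num)
        linarith
      exact le_of_mul_le_mul_right h4 (by linarith)
    · exact (pow_le_one₀ (norm_nonneg _) h1.le).trans (by norm_num)

theorem real_bounds (k : ℕ) (hk : Odd k) (l : ℝ) (hl1 : 1 / 3 ≤ l) (u : ℝ)
    (h : u ^ k = l * (1 - 2 * u)) : 0 < u ∧ u < 1 / 2 ∧ 1 / 2 - 3 / 2 * (1 / 2) ^ k ≤ u := by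
  have h0 : 0 < u := by
    by_contra hcon
    push Not at hcon
    have h1 : u ^ k ≤ 0 := hk.pow_nonpos_iff.mpr hcon
    rw [h] at h1
    nlinarith
  have h1 : 0 < u ^ k := pow_pos h0 k
  have h2 : u < 1 / 2 := by
    rw [h] at h1
    have : 0 < 1 - 2 * u := by
      by_contra hcon
      push Not at hcon
      nlinarith
    linarith
  refine ⟨h0, h2, ?_⟩
  have h3 : u ^ k ≤ (1 / 2) ^ k := pow_le_pow_left₀ h0.le h2.le k
  nlinarith

theorem exists_real (k : ℕ) (hk : Odd k) (l : ℝ) (hl1 : 1 / 3 ≤ l) :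
    ∃ r : ℝ, r ^ k = l * (1 - 2 * r) ∧ ∀ u : ℝ, u ^ k = l * (1 - 2 * u) → u = r := by
  have hcont : Continuous (fun u : ℝ => u ^ k - l * (1 - 2 * u)) := by fun_prop
  have hmono : StrictMono (fun u : ℝ => u ^ k - l * (1 - 2 * u)) := by
    intro a b hab
    have h1 : a ^ k < b ^ k := hk.strictMono_pow hab
    have h2 : l * (1 - 2 * b) < l * (1 - 2 * a) := by nlinarith
    change a ^ k - l * (1 - 2 * a) < b ^ k - l * (1 - 2 * b)
    linarith
  have hk0 : k ≠ 0 := by rintro rfl; exact absurd hk (by decide)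
  have hivt := intermediate_value_Icc (by norm_num : (0 : ℝ) ≤ 1 / 2) hcont.continuousOn
  have hmem : (0 : ℝ) ∈ Set.Icc ((0 : ℝ) ^ k - l * (1 - 2 * 0)) ((1 / 2 : ℝ) ^ k -
      l * (1 - 2 * (1 / 2))) := by
    rw [zero_pow hk0]
    constructor
    · linarith
    · have : (0 : ℝ) ≤ (1 / 2) ^ k := by positivity
      linarith
  obtain ⟨r, -, hr⟩ := hivt hmem
  refine ⟨r, by linarith [hr], fun u hu => ?_⟩
  apply hmono.injective
  change u ^ k - l * (1 - 2 * u) = r ^ k - l * (1 - 2 * r)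
  have hr' : r ^ k - l * (1 - 2 * r) = 0 := hr
  rw [hr', hu, sub_self]

end Pool.Agent.V11268.SS
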